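import Mathlib
import Pool.Agent.Helper189.FratFinal

namespace Pool.Agent.Results.MP_f5b23d_al.FrattiniGenus

/-- `G` is residually torsion-free nilpotent: every `g ≠ 1` survives under some homomorphism of `G`
onto a nilpotent group without elements of finite order other than `1`. -/
def ResiduallyTorsionFreeNilpotent (G : Type) [Group G] : Prop :=
  ∀ g : G, g ≠ 1 → ∃ (K : Type) (_ : Group K) (f : G →* K), Function.Surjective f ∧
    Group.IsNilpotent K ∧ (∀ (x : K) (n : ℕ), n ≠ 0 → x ^ n = 1 → x = 1) ∧ f g ≠ 1

/-- `G` and `H` have the same lower central sequence: the quotients by the corresponding terms of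
the lower central series are isomorphic. (Mathlib's series starts with the whole group at index
`0`.) -/
def SameLowerCentralSequence (G H : Type) [Group G] [Group H] : Prop :=
  ∀ n : ℕ, Nonempty (G ⧸ (⊤ : Subgroup G).lowerCentralSeries n ≃*
    H ⧸ (⊤ : Subgroup H).lowerCentralSeries n)

theorem rtfn_of_sep {G : Type} [Group G] (h : Helper189.Rtfn.RTFN G) :
    ResiduallyTorsionFreeNilpotent G := by
  intro g hg
  obtain ⟨N, hN, hgN, hnil, htf⟩ := h g hg
  exact ⟨G ⧸ N, inferInstance, QuotientGroup.mk' N, QuotientGroup.mk'_surjective N, hnil, htf,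
    fun h => hgN ((QuotientGroup.eq_one_iff g).mp h)⟩

/-- There are two finitely generated residually torsion-free nilpotent groups of the same genus
such that the first has trivial and the second has nontrivial Frattini subgroup. -/
theorem result : ∃ (G H : Type) (_ : Group G) (_ : Group H),
    Group.FG G ∧ Group.FG H ∧
    ResiduallyTorsionFreeNilpotent G ∧ ResiduallyTorsionFreeNilpotent H ∧
    SameLowerCentralSequence G H ∧
    frattini G = ⊥ ∧ frattini H ≠ ⊥ :=
  ⟨Helper189.FratFinal.G, Helper189.FratFinal.H, inferInstance, inferInstance,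
    Helper189.FratFinal.fg_G, Helper189.FratFinal.fg_H,
    rtfn_of_sep Helper189.FratFinal.rtfn_G, rtfn_of_sep Helper189.FratFinal.rtfn_H,
    Helper189.FratFinal.genus, Helper189.FratFinal.frattini_G, Helper189.FratFinal.frattini_H⟩

end Pool.Agent.Results.MP_f5b23d_al.FrattiniGenus
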